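import Pool.Agent.LC5.Stmts

set_option autoImplicit false

namespace Pool.Agent.LC5.H79

open Pool.Agent.LCK Pool.Agent.LC5

theorem mem_seg {a b p : E3} (t : ℝ) (h0 : 0 ≤ t) (h1 : t ≤ 1) (h : (1 - t) • a + t • b = p) :
    p ∈ segment ℝ a b := ⟨1 - t, t, by linarith, h0, by ring, h⟩

theorem dj_no {a b c d p : E3} (h : Dj a b c d) (h1 : p ∈ segment ℝ a b) (h2 : p ∈ segment ℝ c d) :
    False := by
  have : p ∈ segment ℝ a b ∩ segment ℝ c d := ⟨h1, h2⟩
  rw [h] at this
  exact this

/-- collinear points -/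
theorem col (a b c : E3) (hab : a ≠ b) (hbc : b ≠ c) (hi : Hi a b c)
    (hd : ¬ LinearIndependent ℝ ![c - a, b - a]) :
    ∃ θ : ℝ, 0 < θ ∧ θ < 1 ∧ b = (1 - θ) • a + θ • c := by
  have hb : b - a ≠ 0 := sub_ne_zero.mpr (Ne.symm hab)
  have hdep : ∃ s : ℝ, c - a = s • (b - a) := by
    by_contra hne
    push Not at hne
    apply hd
    rw [LinearIndependent.pair_iff]
    intro s t hst
    have hs : s = 0 := by
      by_contra hs
      apply hne (-(t / s))
      have : s • (c - a) = -(t • (b - a)) := eq_neg_of_add_eq_zero_left hst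
      calc c - a = s⁻¹ • (s • (c - a)) := by rw [smul_smul, inv_mul_cancel₀ hs, one_smul]
        _ = s⁻¹ • (-(t • (b - a))) := by rw [this]
        _ = (-(t / s)) • (b - a) := by
            rw [smul_neg, smul_smul, ← neg_smul]
            congr 1
            field_simp
    subst hs
    simp only [zero_smul, zero_add, smul_eq_zero] at hst
    rcases hst with h | h
    · exact ⟨rfl, h⟩
    · exact absurd h hb
  obtain ⟨s, hs⟩ := hdep
  -- c = a + s (b - a)
  have hc : c = a + s • (b - a) := by rw [← hs]; abel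
  have hs1 : 1 < s := by
    by_contra hle
    push Not at hle
    rcases lt_or_eq_of_le hle with hlt | heq
    · -- s < 1 : a point of both segments other than b
      rcases le_or_gt 0 s with h0 | h0
      · -- c is in segment a b
        have hcm : c ∈ segment ℝ a b ∩ segment ℝ b c := by
          refine ⟨mem_seg s h0 hle ?_, right_mem_segment ℝ b c⟩
          rw [hc]; module
        rw [hi] at hcm
        exact hbc (Set.mem_singleton_iff.mp hcm).symm
      · -- a is in segment b c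
        have ham : a ∈ segment ℝ a b ∩ segment ℝ b c := by
          refine ⟨left_mem_segment ℝ a b, ?_⟩
          have h1s : 0 < 1 - s := by linarith
          refine mem_seg (1 / (1 - s)) (by positivity) ?_ ?_
          · rw [div_le_one h1s]; linarith
          · rw [hc]
            have e1 : (1 - 1 / (1 - s)) + (1 / (1 - s)) * s = 0 := by field_simp; ring
            have e2 : (1 / (1 - s)) * (1 - s) = 1 := by field_simp
            calc (1 - 1 / (1 - s)) • b + (1 / (1 - s)) • (a + s • (b - a))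
                = ((1 - 1 / (1 - s)) + (1 / (1 - s)) * s) • b
                  + ((1 / (1 - s)) * (1 - s)) • a := by module
              _ = a := by rw [e1, e2, zero_smul, one_smul, zero_add]
        rw [hi] at ham
        exact hab (Set.mem_singleton_iff.mp ham)
    · apply hbc
      rw [hc, heq]; module
  have hs0 : 0 < s := by linarith
  refine ⟨1 / s, by positivity, ?_, ?_⟩
  · rw [div_lt_one hs0]; exact hs1
  · rw [hc]
    have e2 : (1 / s) * s = 1 := by field_simp
    calc b = a + (1 : ℝ) • (b - a) := by module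
      _ = a + ((1 / s) * s) • (b - a) := by rw [e2]
      _ = (1 - 1 / s) • a + (1 / s) • (a + s • (b - a)) := by module

/-- BC1 -/
theorem bc1 (hSM : SM6Stmt) (hK : KEYStmt) : BC1Stmt := by
  intro l hl v hv y₁ y₂ y₃ α β γ τ r hCD
  obtain ⟨⟨h1, h2, h3, hs⟩, ⟨ha, hb, hc, hs'⟩, ⟨ht0, ht1⟩, ⟨hr0, hr1⟩, hy, hw⟩ := hCD
  obtain ⟨⟨d0, d1, d2, d3, d4⟩, hsimp⟩ := (hSM.2 l v).mp hv
  obtain ⟨hi01, hi12, hi23, hi34, dj02, dj03, dj04, dj13, dj14, dj24⟩ := (hSM.1 v).mp hsimp
  set y : E3 := y₁ • v 1 + y₂ • v 2 + y₃ • v 3 with hydef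
  have hyseg : y ∈ segment ℝ (v 4) (v 5) := mem_seg τ ht0 ht1 hy.symm
  have hwseg : α • y + β • v 3 + γ • v 4 ∈ segment ℝ (v 0) (v 1) := by
    rw [segment_symm]
    exact mem_seg r hr0 hr1 hw.symm
  have hne12 : v 1 ≠ v 2 := by
    intro h; rw [h, dist_self] at d1; exact absurd (hl 1) (by rw [← d1]; exact lt_irrefl _)
  have hne23 : v 2 ≠ v 3 := by
    intro h; rw [h, dist_self] at d2; exact absurd (hl 2) (by rw [← d2]; exact lt_irrefl _)
  -- y not in link 1, not in link 2
  have hno1 : y ∉ segment ℝ (v 1) (v 2) := fun h => dj_no dj14 h hyseg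
  have hno2 : y ∉ segment ℝ (v 2) (v 3) := fun h => dj_no dj24 h hyseg
  have hy3 : 0 < y₃ := by
    rcases lt_or_eq_of_le h3 with h | h
    · exact h
    · exfalso
      apply hno1
      refine mem_seg y₂ h2 (by linarith) ?_
      rw [hydef, ← h]
      have : y₁ = 1 - y₂ := by linarith
      rw [this]; module
  have hy1 : 0 < y₁ := by
    rcases lt_or_eq_of_le h1 with h | h
    · exact h
    · exfalso
      apply hno2
      refine mem_seg y₃ h3 (by linarith) ?_
      rw [hydef, ← h]
      have : y₂ = 1 - y₃ := by linarith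
      rw [this]; module
  have hy2 : 0 < y₂ := by
    rcases lt_or_eq_of_le h2 with h | h
    · exact h
    · exfalso
      have e1 : y = v 1 + y₃ • (v 3 - v 1) := by
        rw [hydef, ← h]
        have : y₁ = 1 - y₃ := by linarith
        rw [this]; module
      obtain ⟨p, hp1, hp2⟩ := hK (v 1) (v 3) (v 4) y₃ α β γ hy3 (by linarith) ha hb hc hs'
      rw [← e1] at hp1 hp2
      -- p in link 0
      have hp0 : p ∈ segment ℝ (v 0) (v 1) :=
        (convex_segment (v 0) (v 1)).segment_subset (right_mem_segment ℝ _ _) hwseg hp1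
      have hp4 : p ∈ segment ℝ (v 4) (v 5) :=
        (convex_segment (v 4) (v 5)).segment_subset hyseg (left_mem_segment ℝ _ _) hp2
      exact dj_no dj04 hp0 hp4
  refine ⟨hy1, hy2, hy3, ?_⟩
  by_contra hd
  obtain ⟨θ, hθ0, hθ1, hθ⟩ := col (v 1) (v 2) (v 3) hne12 hne23 hi12 hd
  -- position of y on the line: y = v1 + (y₂ θ + y₃)(v3 - v1)
  rcases le_or_gt (y₂ * θ + y₃) θ with hle | hgt
  · apply hno1
    refine mem_seg ((y₂ * θ + y₃) / θ) (by positivity) ?_ ?_
    · rw [div_le_one hθ0]; exact hle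
    · have e : ((y₂ * θ + y₃) / θ) * θ = y₂ * θ + y₃ := by field_simp
      have hy1' : y₁ = 1 - y₂ - y₃ := by linarith
      rw [hydef, hy1', hθ]
      calc (1 - (y₂ * θ + y₃) / θ) • v 1 + ((y₂ * θ + y₃) / θ) • ((1 - θ) • v 1 + θ • v 3)
          = (1 - ((y₂ * θ + y₃) / θ) * θ) • v 1 + (((y₂ * θ + y₃) / θ) * θ) • v 3 := by module
        _ = (1 - (y₂ * θ + y₃)) • v 1 + (y₂ * θ + y₃) • v 3 := by rw [e]
        _ = (1 - y₂ - y₃) • v 1 + y₂ • ((1 - θ) • v 1 + θ • v 3) + y₃ • v 3 := by module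
  · apply hno2
    have h1θ : 0 < 1 - θ := by linarith
    refine mem_seg ((y₂ * θ + y₃ - θ) / (1 - θ)) ?_ ?_ ?_
    · exact div_nonneg (by linarith) h1θ.le
    · rw [div_le_one h1θ]
      have : y₂ * θ ≤ y₂ := by nlinarith
      linarith
    · set μ : ℝ := (y₂ * θ + y₃ - θ) / (1 - θ) with hμ
      have e : μ * (1 - θ) = y₂ * θ + y₃ - θ := by rw [hμ]; field_simp
      have hy1' : y₁ = 1 - y₂ - y₃ := by linarith
      rw [hydef, hy1', hθ]
      calc (1 - μ) • ((1 - θ) • v 1 + θ • v 3) + μ • v 3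
          = (1 - θ - μ * (1 - θ)) • v 1 + (θ + μ * (1 - θ)) • v 3 := by module
        _ = (1 - θ - (y₂ * θ + y₃ - θ)) • v 1 + (θ + (y₂ * θ + y₃ - θ)) • v 3 := by rw [e]
        _ = (1 - y₂ - y₃) • v 1 + y₂ • ((1 - θ) • v 1 + θ • v 3) + y₃ • v 3 := by module

end Pool.Agent.LC5.H79
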