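import Pool.Agent.LC5.Stmts

set_option autoImplicit false

namespace Pool.Agent.LC5.H79

open Pool.Agent.LCK Pool.Agent.LC5

theorem pt_one (v : Fin 6 → E3) : pt v (0, 0, 0) = v 1 := by
  simp [pt]

theorem pt_two (v : Fin 6 → E3) : pt v (0, 1, 0) = v 2 := by
  simp [pt]

theorem pt_three (v : Fin 6 → E3) : pt v (1, 0, 0) = v 3 := by
  simp [pt]

theorem pt_four (v : Fin 6 → E3) : pt v (0, 0, 1) = v 4 := by
  simp [pt]

/-- BSI -/
theorem bsi (hSM : SM6Stmt) (hD : DJCStmt) : BSIStmt := by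
  intro v hv
  obtain ⟨hdt, a, b, c, x, y, z, h5, h0, ha, hb, hc, hy, hz, hxy⟩ := hv
  have D := hD v hdt
  have e1 := (pt_one v).symm
  have e2 := (pt_two v).symm
  have e3 := (pt_three v).symm
  have e4 := (pt_four v).symm
  refine (hSM.1 v).mpr ⟨?_, ?_, ?_, ?_, ?_, ?_, ?_, ?_, ?_, ?_⟩
  · rw [h0, e1, e2]
    refine (D (x, y, z) (0, 0, 0) (0, 1, 0) (0, 0, 0)).2.mpr ?_
    intro s t hs0 hs1 ht0 ht1 h
    simp only [Prod.ext_iff, Prod.smul_fst, Prod.smul_snd, Prod.fst_sub, Prod.snd_sub,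
      smul_eq_mul] at h
    obtain ⟨g1, g2, g3⟩ := h
    have : s = 0 := by
      have : s * z = 0 := by linarith
      rcases mul_eq_zero.mp this with h | h
      · exact h
      · exact absurd h hz.ne'
    rw [this, zero_smul]
  · rw [e1, e2, e3]
    refine (D (0, 0, 0) (0, 1, 0) (1, 0, 0) (0, 0, 0)).2.mpr ?_
    intro s t hs0 hs1 ht0 ht1 h
    simp only [Prod.ext_iff, Prod.smul_fst, Prod.smul_snd, Prod.fst_sub, Prod.snd_sub,
      smul_eq_mul] at h
    obtain ⟨g1, g2, g3⟩ := h
    have : s = 0 := by linarith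
    rw [this, zero_smul]
  · rw [e2, e3, e4]
    refine (D (0, 1, 0) (1, 0, 0) (0, 0, 1) (0, 0, 0)).2.mpr ?_
    intro s t hs0 hs1 ht0 ht1 h
    simp only [Prod.ext_iff, Prod.smul_fst, Prod.smul_snd, Prod.fst_sub, Prod.snd_sub,
      smul_eq_mul] at h
    obtain ⟨g1, g2, g3⟩ := h
    have : s = 0 := by linarith
    rw [this, zero_smul]
  · rw [h5, e3, e4]
    refine (D (1, 0, 0) (0, 0, 1) (a, b, c) (0, 0, 0)).2.mpr ?_
    intro s t hs0 hs1 ht0 ht1 h
    simp only [Prod.ext_iff, Prod.smul_fst, Prod.smul_snd, Prod.fst_sub, Prod.snd_sub,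
      smul_eq_mul] at h
    obtain ⟨g1, g2, g3⟩ := h
    have ht : t = 0 := by
      have : t * b = 0 := by linarith
      rcases mul_eq_zero.mp this with h | h
      · exact h
      · exact absurd h hb.ne'
    have : s = 0 := by rw [ht] at g1; linarith
    rw [this, zero_smul]
  · rw [h0, e1, e2, e3]
    refine (D (x, y, z) (0, 0, 0) (0, 1, 0) (1, 0, 0)).1.mpr ?_
    intro s t hs0 hs1 ht0 ht1 h
    simp only [Prod.ext_iff, Prod.smul_fst, Prod.smul_snd, Prod.fst_add, Prod.snd_add,
      smul_eq_mul] at h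
    obtain ⟨g1, g2, g3⟩ := h
    have hs : 1 - s = 0 := by
      have : (1 - s) * z = 0 := by linarith
      rcases mul_eq_zero.mp this with h | h
      · exact h
      · exact absurd h hz.ne'
    rw [hs] at g1 g2
    linarith
  · rw [h0, e1, e3, e4]
    refine (D (x, y, z) (0, 0, 0) (1, 0, 0) (0, 0, 1)).1.mpr ?_
    intro s t hs0 hs1 ht0 ht1 h
    simp only [Prod.ext_iff, Prod.smul_fst, Prod.smul_snd, Prod.fst_add, Prod.snd_add,
      smul_eq_mul] at h
    obtain ⟨g1, g2, g3⟩ := h
    have hs : 1 - s = 0 := by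
      have : (1 - s) * y = 0 := by linarith
      rcases mul_eq_zero.mp this with h | h
      · exact h
      · exact absurd h hy.ne'
    rw [hs] at g1 g3
    linarith
  · rw [h0, h5, e1, e4]
    refine (D (x, y, z) (0, 0, 0) (0, 0, 1) (a, b, c)).1.mpr ?_
    intro s t hs0 hs1 ht0 ht1 h
    simp only [Prod.ext_iff, Prod.smul_fst, Prod.smul_snd, Prod.fst_add, Prod.snd_add,
      smul_eq_mul] at h
    obtain ⟨g1, g2, g3⟩ := h
    have hs : 1 - s = 0 := by
      have : (1 - s) * (x * b - y * a) = 0 := by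
        have k1 : (1 - s) * x = t * a := by linarith
        have k2 : (1 - s) * y = t * b := by linarith
        calc (1 - s) * (x * b - y * a) = ((1 - s) * x) * b - ((1 - s) * y) * a := by ring
          _ = 0 := by rw [k1, k2]; ring
      rcases mul_eq_zero.mp this with h | h
      · exact h
      · exact absurd h (by linarith)
    have ht : t = 0 := by
      have : t * a = 0 := by rw [hs] at g1; linarith
      rcases mul_eq_zero.mp this with h | h
      · exact h
      · exact absurd h ha.ne'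
    rw [hs, ht] at g3
    linarith
  · rw [e1, e2, e3, e4]
    refine (D (0, 0, 0) (0, 1, 0) (1, 0, 0) (0, 0, 1)).1.mpr ?_
    intro s t hs0 hs1 ht0 ht1 h
    simp only [Prod.ext_iff, Prod.smul_fst, Prod.smul_snd, Prod.fst_add, Prod.snd_add,
      smul_eq_mul] at h
    obtain ⟨g1, g2, g3⟩ := h
    linarith
  · rw [h5, e1, e2, e4]
    refine (D (0, 0, 0) (0, 1, 0) (0, 0, 1) (a, b, c)).1.mpr ?_
    intro s t hs0 hs1 ht0 ht1 h
    simp only [Prod.ext_iff, Prod.smul_fst, Prod.smul_snd, Prod.fst_add, Prod.snd_add,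
      smul_eq_mul] at h
    obtain ⟨g1, g2, g3⟩ := h
    have ht : t = 0 := by
      have : t * a = 0 := by linarith
      rcases mul_eq_zero.mp this with h | h
      · exact h
      · exact absurd h ha.ne'
    rw [ht] at g3
    linarith
  · rw [h5, e2, e3, e4]
    refine (D (0, 1, 0) (1, 0, 0) (0, 0, 1) (a, b, c)).1.mpr ?_
    intro s t hs0 hs1 ht0 ht1 h
    simp only [Prod.ext_iff, Prod.smul_fst, Prod.smul_snd, Prod.fst_add, Prod.snd_add,
      smul_eq_mul] at h
    obtain ⟨g1, g2, g3⟩ := h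
    have k1 : t * (a + b) = 1 := by linarith
    have k2 : t * (1 - c) = 1 := by linarith
    have k3 : t * ((1 - c) - (a + b)) = 0 := by linarith
    have ht : t ≠ 0 := by
      intro h
      rw [h] at k1
      linarith
    rcases mul_eq_zero.mp k3 with h | h
    · exact ht h
    · linarith

end Pool.Agent.LC5.H79
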